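import Pool.Agent.Helper15.T6.Stmts

set_option autoImplicit false

/-!
SOFB: bounds for the Gaussian moments of a form of degree `d` (after Helper72/T5/SOFB.lean).
-/

open Finset MeasureTheory Filter Topology

namespace Pool.Agent.Helper59.T6

open Pool.Agent.Helper15.T4 (IsPM PM cov IsMat nsq po)
open Pool.Agent.Helper15.T5 (ST_HOM ST_LGC)
open Pool.Agent.Helper15.T6

section

variable {ι : Type} [Fintype ι]

lemma nsq_nonneg (x : ι → ℝ) : 0 ≤ nsq x := Finset.sum_nonneg fun _ _ => sq_nonneg _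

lemma nsq_smul (s : ℝ) (x : ι → ℝ) : nsq (s • x) = s ^ 2 * nsq x := by
  simp only [nsq, Pi.smul_apply, smul_eq_mul, Finset.mul_sum, mul_pow]

lemma nsq_cont : Continuous (nsq : (ι → ℝ) → ℝ) := by
  unfold nsq
  fun_prop

lemma sqrt_smul (s : ℝ) (hs : 0 ≤ s) (x : ι → ℝ) : Real.sqrt (nsq (s • x)) = s * Real.sqrt (nsq x) := by
  rw [nsq_smul, Real.sqrt_mul (sq_nonneg s), Real.sqrt_sq hs]

/-- integrability of the Gaussian -/
lemma gauss_int (b : ℝ) (hb : 0 < b) : Integrable (fun x : ι → ℝ => Real.exp (-b * nsq x)) := by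
  have h : Integrable (fun x : ι → ℝ => ∏ i, Real.exp (-b * (x i) ^ 2)) :=
    Integrable.fintype_prod (f := fun _ : ι => fun y : ℝ => Real.exp (-b * y ^ 2))
      fun _ => integrable_exp_neg_mul_sq hb
  refine h.congr (ae_of_all _ fun x => ?_)
  simp only [nsq, Finset.mul_sum]
  rw [Real.exp_sum]

lemma gauss_int' : Integrable (fun x : ι → ℝ => Real.exp (-(nsq x) / 2)) := by
  refine (gauss_int (ι := ι) (1 / 2) (by norm_num)).congr (ae_of_all _ fun x => ?_)
  simp only
  congr 1; ring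

/-- the Gaussian measure (not normalised) -/
noncomputable def GM (ι : Type) [Fintype ι] : Measure (ι → ℝ) :=
  (volume : Measure (ι → ℝ)).withDensity fun x => ENNReal.ofReal (Real.exp (-(nsq x) / 2))

lemma GM_fin : IsFiniteMeasure (GM ι) := by
  unfold GM
  exact isFiniteMeasure_withDensity_ofReal gauss_int'.2

lemma dens_meas : Measurable fun x : ι → ℝ => ENNReal.ofReal (Real.exp (-(nsq x) / 2)) := by
  refine ENNReal.measurable_ofReal.comp (Continuous.measurable ?_)
  have := nsq_cont (ι := ι)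
  fun_prop

lemma GM_integral (f : (ι → ℝ) → ℝ) : ∫ x, f x ∂(GM ι) = ∫ x, f x * Real.exp (-(nsq x) / 2) := by
  unfold GM
  rw [integral_withDensity_eq_integral_toReal_smul dens_meas (ae_of_all _ fun x => by simp)]
  refine integral_congr_ae (ae_of_all _ fun x => ?_)
  simp only [smul_eq_mul]
  rw [ENNReal.toReal_ofReal (Real.exp_pos _).le, mul_comm]

lemma GM_pos {U : Set (ι → ℝ)} (hU : IsOpen U) (hne : U.Nonempty) : GM ι U ≠ 0 := by
  intro h
  have hac : (volume : Measure (ι → ℝ)) ≪ GM ι := by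
    refine withDensity_absolutelyContinuous' dens_meas.aemeasurable (ae_of_all _ fun x => ?_)
    simp [Real.exp_pos]
  exact (hU.measure_pos volume hne).ne' (hac h)

variable {d : ℕ} {P : (ι → ℝ) → ℝ} {q : ℝ}

/-- the normalised form -/
noncomputable def gp (d : ℕ) (P : (ι → ℝ) → ℝ) (q : ℝ) (x : ι → ℝ) : ℝ := |P x| / (q * Real.sqrt (nsq x) ^ d)

lemma gp_nonneg (h : MaxQ d P q) (x : ι → ℝ) : 0 ≤ gp d P q x := by
  have := h.q0
  unfold gp
  positivity

lemma gp_le (h : MaxQ d P q) (x : ι → ℝ) : gp d P q x ≤ 1 := by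
  have := h.q0
  exact div_le_one_of_le₀ (h.le x) (by positivity)

lemma gp_hom (h : MaxQ d P q) (s : ℝ) (x : ι → ℝ) (hs : 0 < s) : gp d P q (s • x) = gp d P q x := by
  unfold gp
  rw [h.hom, sqrt_smul s hs.le, abs_mul, abs_of_pos (pow_pos hs d)]
  have : q * (s * Real.sqrt (nsq x)) ^ d = s ^ d * (q * Real.sqrt (nsq x) ^ d) := by ring
  rw [this, mul_div_mul_left _ _ (pow_pos hs d).ne']

lemma gp_meas (h : MaxQ d P q) : Measurable (gp d P q) := by
  have h1 := h.cont
  have h2 := nsq_cont (ι := ι)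
  unfold gp
  refine Measurable.div h1.abs.measurable (Continuous.measurable ?_)
  fun_prop

lemma abs_eq (h : MaxQ d P q) (x : ι → ℝ) : |P x| = q * Real.sqrt (nsq x) ^ d * gp d P q x := by
  unfold gp
  by_cases h0 : q * Real.sqrt (nsq x) ^ d = 0
  · have := h.le x
    rw [h0] at this ⊢
    rw [zero_mul]
    exact le_antisymm this (abs_nonneg _)
  · rw [mul_div_cancel₀ _ h0]

lemma gp_ess (h : MaxQ d P q) (δ : ℝ) (hδ : 0 < δ) : GM ι {x | 1 - δ < gp d P q x} ≠ 0 := by
  have hq := h.q0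
  obtain ⟨x0, hx0, hP⟩ := h.att
  set U : Set (ι → ℝ) := {x | (1 - δ) * (q * Real.sqrt (nsq x) ^ d) < |P x|} ∩ {x | 0 < nsq x} with hU
  have hUo : IsOpen U := by
    have h1 := h.cont
    have h2 := nsq_cont (ι := ι)
    refine IsOpen.inter (isOpen_lt ?_ h1.abs) (isOpen_lt continuous_const h2)
    fun_prop
  have hUne : U.Nonempty := by
    refine ⟨x0, ?_, ?_⟩
    · simp only [Set.mem_ofPred_eq, hx0, hP, Real.sqrt_one, one_pow, mul_one]
      nlinarith
    · simp only [Set.mem_ofPred_eq, hx0]; norm_num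
  have hsub : U ⊆ {x | 1 - δ < gp d P q x} := by
    rintro x ⟨h1, h2⟩
    simp only [Set.mem_ofPred_eq] at h1 h2 ⊢
    have h3 : 0 < q * Real.sqrt (nsq x) ^ d := by
      have := Real.sqrt_pos.mpr h2
      positivity
    unfold gp
    rw [lt_div_iff₀ h3]
    exact h1
  intro h0
  exact GM_pos hUo hUne (measure_mono_null hsub h0)

/-- the moments of the normalised form -/
noncomputable def mm (d : ℕ) (P : (ι → ℝ) → ℝ) (q : ℝ) (n : ℕ) : ℝ := ∫ x, gp d P q x ^ n ∂(GM ι)

lemma moment (hH : ST_HOM) (h : MaxQ d P q) (a b k : ℕ) (hk : d * a + b = 2 * k) :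
    ∫ x : ι → ℝ, |P x| ^ a * Real.sqrt (nsq x) ^ b * Real.exp (-(nsq x) / 2)
      = q ^ a * (∏ j ∈ range k, ((Fintype.card ι : ℝ) + 2 * j)) * mm d P q a := by
  have e := hH ι (fun x => gp d P q x ^ a) 1 ((gp_meas h).pow_const a)
    (fun x => by
      rw [abs_of_nonneg (pow_nonneg (gp_nonneg h x) a)]
      exact pow_le_one₀ (gp_nonneg h x) (gp_le h x))
    (fun s x hs => by rw [gp_hom h s x hs]) k
  unfold mm
  rw [GM_integral, mul_assoc, ← e, ← integral_const_mul]
  refine integral_congr_ae (ae_of_all _ fun x => ?_)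
  simp only
  rw [abs_eq h x]
  have e2 : nsq x ^ k = Real.sqrt (nsq x) ^ (d * a + b) := by
    rw [hk, pow_mul, Real.sq_sqrt (nsq_nonneg x)]
  rw [e2, pow_add, pow_mul]
  ring

lemma card_pos (h : MaxQ d P q) : (1 : ℝ) ≤ Fintype.card ι := by
  obtain ⟨x0, hx0, -⟩ := h.att
  have : Nonempty ι := by
    by_contra hne
    rw [not_nonempty_iff] at hne
    simp [nsq] at hx0
  exact_mod_cast Fintype.card_pos

lemma prod_pos' (h : MaxQ d P q) (k : ℕ) : 0 < ∏ j ∈ range k, ((Fintype.card ι : ℝ) + 2 * j) := by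
  have := card_pos h
  exact Finset.prod_pos fun j _ => by positivity

end

theorem ar1 (d v f N : ℕ) (h1 : 2 * f ≤ d * v) (h2 : v ≤ N) :
    d * (2 * N - v) + (d * v - 2 * f) = 2 * (d * N - f) := by
  have e1 : d * (2 * N - v) = 2 * (d * N) - d * v := by
    rw [Nat.mul_sub]
    congr 1
    ring
  have e2 : d * v ≤ d * N := Nat.mul_le_mul_left d h2
  omega

/-- The normalising constant of the Gaussian integral. -/
noncomputable def gc (ι : Type) [Fintype ι] : ℝ := (2 * Real.pi) ^ (-(Fintype.card ι : ℝ) / 2)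

theorem gc_pos (ι : Type) [Fintype ι] : 0 < gc ι := by
  unfold gc
  exact Real.rpow_pos_of_pos (by positivity) _

theorem GR_eq {ι : Type} [Fintype ι] (φ : (ι → ℝ) → ℝ) :
    GR φ = gc ι * ∫ x : ι → ℝ, φ x * Real.exp (-(nsq x) / 2) := rfl

theorem even_mom {ι : Type} [Fintype ι] {d : ℕ} {P : (ι → ℝ) → ℝ} {q : ℝ} (hH : ST_HOM)
    (h : MaxQ d P q) (N : ℕ) : ∫ x : ι → ℝ, P x ^ (2 * N) * Real.exp (-(nsq x) / 2)
      = q ^ (2 * N) * (∏ j ∈ range (d * N), ((Fintype.card ι : ℝ) + 2 * j)) * mm d P q (2 * N) := by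
  rw [← moment hH h (2 * N) 0 (d * N) (by ring)]
  refine integral_congr_ae (ae_of_all _ fun x => ?_)
  simp only [pow_zero, mul_one]
  rw [pow_mul |P x|, sq_abs, ← pow_mul]

theorem st_SOFB (hH : ST_HOM) (hL : ST_LGC) : ST_SOFB := by
  intro ι _ d P q h
  have hq := h.q0
  have := GM_fin (ι := ι)
  obtain ⟨L1, L2, -⟩ := hL (ι → ℝ) (GM ι) (gp d P q) (gp_meas h) (gp_nonneg h) (gp_le h)
    (fun δ hδ => gp_ess h δ hδ)
  refine ⟨fun N => ?_, ?_⟩
  · rw [GR_eq, even_mom hH h]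
    have h1 := L1 (2 * N)
    have h2 := prod_pos' h (d * N)
    exact mul_pos (gc_pos ι) (mul_pos (mul_pos (pow_pos hq _) h2) h1)
  · intro v f hvf
    refine ⟨2 ^ (f + 1) * (q ^ v)⁻¹, ?_⟩
    have ht : Tendsto (fun N : ℕ => (∫ x, gp d P q x ^ (2 * N - v) ∂(GM ι)) /
        ∫ x, gp d P q x ^ (2 * N) ∂(GM ι)) atTop (𝓝 1) :=
      (L2 v).comp (tendsto_id.const_mul_atTop' (by norm_num : (0 : ℕ) < 2))
    filter_upwards [ht.eventually (gt_mem_nhds (show (1 : ℝ) < 2 by norm_num)),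
      eventually_ge_atTop (v + f)] with N hN1 hN2
    have hm : 0 < mm d P q (2 * N) := L1 (2 * N)
    have hm2 : mm d P q (2 * N - v) ≤ 2 * mm d P q (2 * N) := by
      rw [div_lt_iff₀ (L1 (2 * N))] at hN1
      exact hN1.le
    have hm0 : 0 ≤ mm d P q (2 * N - v) := (L1 _).le
    have hv : v ≤ N := by omega
    have hdv : d * v ≤ d * N := Nat.mul_le_mul_left d hv
    rw [GR_eq, GR_eq, even_mom hH h,
      moment hH h (2 * N - v) (d * v - 2 * f) (d * N - f) (ar1 d v f N hvf hv)]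
    have hc := card_pos h
    have hsplit : (∏ j ∈ range (d * N - f), ((Fintype.card ι : ℝ) + 2 * j)) * ((d : ℝ) * (N : ℝ)) ^ f ≤
        ∏ j ∈ range (d * N), ((Fintype.card ι : ℝ) + 2 * j) := by
      have e : d * N = (d * N - f) + f := by omega
      have e2 : ∏ j ∈ range (d * N), ((Fintype.card ι : ℝ) + 2 * j)
          = (∏ j ∈ range (d * N - f), ((Fintype.card ι : ℝ) + 2 * j)) *
            ∏ j ∈ range f, ((Fintype.card ι : ℝ) + 2 * ((d * N - f + j : ℕ) : ℝ)) := by
        conv_lhs => rw [e]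
        rw [Finset.prod_range_add]
      rw [e2]
      refine mul_le_mul_of_nonneg_left ?_ (prod_pos' h _).le
      calc ((d : ℝ) * (N : ℝ)) ^ f = ∏ _j ∈ range f, ((d : ℝ) * (N : ℝ)) := by
            rw [Finset.prod_const, Finset.card_range]
        _ ≤ _ := by
            refine Finset.prod_le_prod (fun _ _ => by positivity) fun j _ => ?_
            have : (d * N : ℕ) ≤ 2 * (d * N - f + j) := by omega
            have h3 : ((d * N : ℕ) : ℝ) ≤ ((2 * (d * N - f + j) : ℕ) : ℝ) := by exact_mod_cast this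
            push_cast at h3 ⊢
            linarith
    have hq2 : q ^ (2 * N) = q ^ (2 * N - v) * q ^ v := by
      rw [← pow_add]; congr 1; omega
    have hA := (prod_pos' h (d * N - f)).le
    have h6 : (2 * (d : ℝ) * (N : ℝ)) ^ f = 2 ^ f * ((d : ℝ) * (N : ℝ)) ^ f := by
      rw [← mul_pow]; congr 1; ring
    have hgc := (gc_pos ι).le
    have main : q ^ (2 * N - v) * (∏ j ∈ range (d * N - f), ((Fintype.card ι : ℝ) + 2 * j)) *
          mm d P q (2 * N - v) * (2 * (d : ℝ) * (N : ℝ)) ^ f ≤ 2 ^ (f + 1) * (q ^ v)⁻¹ *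
          (q ^ (2 * N) * (∏ j ∈ range (d * N), ((Fintype.card ι : ℝ) + 2 * j)) *
            mm d P q (2 * N)) := by
     calc q ^ (2 * N - v) * (∏ j ∈ range (d * N - f), ((Fintype.card ι : ℝ) + 2 * j)) *
          mm d P q (2 * N - v) * (2 * (d : ℝ) * (N : ℝ)) ^ f
        = (q ^ (2 * N - v) * 2 ^ f) *
          (((∏ j ∈ range (d * N - f), ((Fintype.card ι : ℝ) + 2 * j)) * ((d : ℝ) * (N : ℝ)) ^ f) *
            mm d P q (2 * N - v)) := by rw [h6]; ring
      _ ≤ (q ^ (2 * N - v) * 2 ^ f) *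
          ((∏ j ∈ range (d * N), ((Fintype.card ι : ℝ) + 2 * j)) * (2 * mm d P q (2 * N))) := by
          refine mul_le_mul_of_nonneg_left ?_ (by positivity)
          exact mul_le_mul hsplit hm2 hm0 (prod_pos' h _).le
      _ = 2 ^ (f + 1) * (q ^ v)⁻¹ *
          (q ^ (2 * N) * (∏ j ∈ range (d * N), ((Fintype.card ι : ℝ) + 2 * j)) * mm d P q (2 * N)) := by
          rw [hq2]
          field_simp
          ring
    have := mul_le_mul_of_nonneg_left main hgc
    linarith

end Pool.Agent.Helper59.T6
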