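import Pool.Agent.Helper59.T6.SOFB

set_option autoImplicit false

/-!
MP_2f9829_co, module SOFT (all degrees): ratios of Gaussian moments of a form of degree `d` (soft
Laplace method; after Helper34/T5/SOFT.lean).
-/

open Finset MeasureTheory Filter Topology

namespace Pool.Agent.Helper59.T6

open Pool.Agent.Helper15.T4 (IsPM PM cov IsMat nsq po)
open Pool.Agent.Helper15.T5 (ST_HOM ST_LGC)
open Pool.Agent.Helper15.T6

section

variable {ι : Type} [Fintype ι] {d : ℕ} {P : (ι → ℝ) → ℝ} {q : ℝ}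

/-- The signed normalised form. -/
noncomputable def sg (d : ℕ) (P : (ι → ℝ) → ℝ) (q : ℝ) (x : ι → ℝ) : ℝ := P x / (q * Real.sqrt (nsq x) ^ d)

theorem abs_sg (h : MaxQ d P q) (x : ι → ℝ) : |sg d P q x| = gp d P q x := by
  have hq := h.q0
  unfold sg gp
  rw [abs_div, abs_of_nonneg (show 0 ≤ q * Real.sqrt (nsq x) ^ d by positivity)]

theorem sg_hom (h : MaxQ d P q) (s : ℝ) (x : ι → ℝ) (hs : 0 < s) : sg d P q (s • x) = sg d P q x := by
  unfold sg
  rw [h.hom, sqrt_smul s hs.le]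
  have : q * (s * Real.sqrt (nsq x)) ^ d = s ^ d * (q * Real.sqrt (nsq x) ^ d) := by ring
  rw [this, mul_div_mul_left _ _ (pow_pos hs d).ne']

theorem sg_meas (h : MaxQ d P q) : Measurable (sg d P q) := by
  have h1 := h.cont
  have h2 := nsq_cont (ι := ι)
  unfold sg
  refine Measurable.div h1.measurable (Continuous.measurable ?_)
  fun_prop

theorem eq_sg (h : MaxQ d P q) (x : ι → ℝ) : P x = q * Real.sqrt (nsq x) ^ d * sg d P q x := by
  unfold sg
  by_cases h0 : q * Real.sqrt (nsq x) ^ d = 0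
  · have := h.le x
    rw [h0] at this ⊢
    rw [zero_mul]
    exact abs_eq_zero.1 (le_antisymm this (abs_nonneg _))
  · rw [mul_div_cancel₀ _ h0]

/-- The normalised function. -/
noncomputable def ps (Φ : (ι → ℝ) → ℝ) (e : ℕ) (x : ι → ℝ) : ℝ := Φ x / Real.sqrt (nsq x) ^ e

variable {Φ : (ι → ℝ) → ℝ} {e : ℕ}

theorem ps_hom (hΦ : ∀ (s : ℝ) (x : ι → ℝ), Φ (s • x) = s ^ e * Φ x) (s : ℝ) (x : ι → ℝ) (hs : 0 < s) :
    ps Φ e (s • x) = ps Φ e x := by
  unfold ps
  rw [hΦ, sqrt_smul s hs.le, mul_pow, mul_div_mul_left _ _ (pow_pos hs e).ne']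

theorem ps_meas (hc : Continuous Φ) : Measurable (ps Φ e) := by
  have h2 := nsq_cont (ι := ι)
  unfold ps
  refine Measurable.div hc.measurable (Continuous.measurable ?_)
  fun_prop

theorem nsq_eq_zero {x : ι → ℝ} (h : nsq x = 0) : x = 0 := by
  funext i
  have := (Finset.sum_eq_zero_iff_of_nonneg (fun j _ => sq_nonneg (x j))).1 h i (mem_univ i)
  simpa using this

theorem eq_ps (hΦ : ∀ (s : ℝ) (x : ι → ℝ), Φ (s • x) = s ^ e * Φ x) (x : ι → ℝ) :
    Φ x = Real.sqrt (nsq x) ^ e * ps Φ e x := by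
  unfold ps
  by_cases h0 : Real.sqrt (nsq x) ^ e = 0
  · have he : e ≠ 0 := by
      rintro rfl
      simp at h0
    have h1 : nsq x = 0 := (Real.sqrt_eq_zero (nsq_nonneg x)).1 ((pow_eq_zero_iff he).1 h0)
    have hx := nsq_eq_zero h1
    have h3 := hΦ 0 x
    rw [zero_smul, zero_pow he, zero_mul] at h3
    rw [h0, hx, h3]
    simp
  · rw [mul_div_cancel₀ _ h0]

/-- The projection to the sphere. -/
theorem sphere_proj (x : ι → ℝ) (hx : nsq x ≠ 0) : ∃ s : ℝ, 0 < s ∧ nsq (s • x) = 1 := by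
  have h1 : 0 < Real.sqrt (nsq x) := Real.sqrt_pos.2 (lt_of_le_of_ne (nsq_nonneg x) (Ne.symm hx))
  refine ⟨(Real.sqrt (nsq x))⁻¹, inv_pos.2 h1, ?_⟩
  rw [nsq_smul, inv_pow, Real.sq_sqrt (nsq_nonneg x), inv_mul_cancel₀ hx]

theorem sphere_compact : IsCompact {x : ι → ℝ | nsq x = 1} := by
  apply Metric.isCompact_of_isClosed_isBounded
  · exact isClosed_eq nsq_cont continuous_const
  · apply Metric.isBounded_iff_subset_closedBall (0 : ι → ℝ) |>.2
    refine ⟨1, fun x hx => ?_⟩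
    rw [mem_closedBall_zero_iff, pi_norm_le_iff_of_nonneg zero_le_one]
    intro i
    have h1 : x i ^ 2 ≤ nsq x := Finset.single_le_sum (f := fun j => x j ^ 2)
      (fun j _ => sq_nonneg (x j)) (mem_univ i)
    rw [Set.mem_ofPred_eq] at hx
    rw [hx] at h1
    rw [Real.norm_eq_abs]
    exact abs_le_one_iff_mul_self_le_one.2 (by nlinarith)

theorem ps_bdd (hc : Continuous Φ) (hΦ : ∀ (s : ℝ) (x : ι → ℝ), Φ (s • x) = s ^ e * Φ x) :
    ∃ C : ℝ, 0 ≤ C ∧ ∀ x, |ps Φ e x| ≤ C := by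
  obtain ⟨C, hC⟩ := (sphere_compact (ι := ι)).exists_bound_of_continuousOn hc.continuousOn
  refine ⟨max C 0 + |Φ 0|, by positivity, fun x => ?_⟩
  by_cases hx : nsq x = 0
  · have hx0 := nsq_eq_zero hx
    subst hx0
    have : |ps Φ e 0| ≤ |Φ 0| := by
      unfold ps
      rw [hx, Real.sqrt_zero]
      rcases Nat.eq_zero_or_pos e with he | he
      · subst he
        simp
      · rw [zero_pow he.ne', div_zero, abs_zero]
        exact abs_nonneg _
    have h0 : 0 ≤ max C 0 := le_max_right _ _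
    linarith
  · obtain ⟨s, hs, hs1⟩ := sphere_proj x hx
    rw [← ps_hom hΦ s x hs]
    have h1 : |ps Φ e (s • x)| ≤ C := by
      unfold ps
      rw [hs1]
      simpa using hC (s • x) hs1
    have h0 : C ≤ max C 0 := le_max_left _ _
    have h2 : 0 ≤ |Φ 0| := abs_nonneg _
    linarith

theorem near (hd0 : 0 < d) (h : MaxQ d P q) (hc : Continuous Φ)
    (hΦ : ∀ (s : ℝ) (x : ι → ℝ), Φ (s • x) = s ^ e * Φ x) {c : ℝ} {v : ℕ}
    (hmx : ∀ x, nsq x = 1 → |P x| = q → Φ x = c * P x ^ v) (ε : ℝ) (hε : 0 < ε) :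
    ∃ δ : ℝ, 0 < δ ∧ δ < 1 ∧ ∀ x, 1 - δ < gp d P q x →
      |ps Φ e x - c * q ^ v * sg d P q x ^ v| ≤ ε := by
  have hq := h.q0
  have hPc := h.cont
  have key : ∀ δ : ℝ, 0 < δ → δ < 1 → (∀ y, nsq y = 1 → 1 - δ < |P y| / q →
      |Φ y - c * P y ^ v| ≤ ε) → ∀ x, 1 - δ < gp d P q x →
      |ps Φ e x - c * q ^ v * sg d P q x ^ v| ≤ ε := by
    intro δ hδ hδ1 hy x hx
    have hx0 : nsq x ≠ 0 := by
      intro h0
      have : gp d P q x = 0 := by
        unfold gp
        rw [h0, Real.sqrt_zero, zero_pow hd0.ne']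
        simp
      rw [this] at hx
      linarith
    obtain ⟨s, hs, hs1⟩ := sphere_proj x hx0
    have h1 := hy (s • x) hs1
    have e1 : gp d P q x = |P (s • x)| / q := by
      rw [← gp_hom h s x hs]
      unfold gp
      rw [hs1]
      simp
    have e2 : ps Φ e x = Φ (s • x) := by
      rw [← ps_hom hΦ s x hs]
      unfold ps
      rw [hs1]
      simp
    have e3 : sg d P q x = P (s • x) / q := by
      rw [← sg_hom h s x hs]
      unfold sg
      rw [hs1]
      simp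
    rw [e1] at hx
    have h2 := h1 hx
    rw [e2, e3, div_pow]
    have e4 : c * q ^ v * (P (s • x) ^ v / q ^ v) = c * P (s • x) ^ v := by
      field_simp
    rw [e4]
    exact h2
  set S : Set (ι → ℝ) := {x | nsq x = 1} ∩ {x | ε ≤ |Φ x - c * P x ^ v|} with hS
  have hScomp : IsCompact S := by
    apply IsCompact.inter_right sphere_compact
    apply isClosed_le continuous_const
    fun_prop
  rcases S.eq_empty_or_nonempty with hem | hne
  · refine ⟨1 / 2, by norm_num, by norm_num, key _ (by norm_num) (by norm_num) ?_⟩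
    intro y hy _
    by_contra hcon
    have : y ∈ S := ⟨hy, (not_le.1 hcon).le⟩
    rw [hem] at this
    exact this
  · obtain ⟨y0, hy0, hmax⟩ := hScomp.exists_isMaxOn hne (f := fun y => |P y| / q)
      (by fun_prop)
    have hlt : |P y0| / q < 1 := by
      have hle : |P y0| ≤ q := by
        have := h.le y0
        rw [hy0.1, Real.sqrt_one, one_pow, mul_one] at this
        exact this
      rw [div_lt_one hq]
      refine lt_of_le_of_ne hle (fun heq => ?_)
      have h1 := hmx y0 hy0.1 heq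
      have h2 := hy0.2
      rw [Set.mem_ofPred_eq, h1, sub_self, abs_zero] at h2
      linarith
    have hnn : 0 ≤ |P y0| / q := by positivity
    have hδ1 : (1 - |P y0| / q) / 2 < 1 := by linarith
    refine ⟨(1 - |P y0| / q) / 2, by linarith, hδ1, key _ (by linarith) hδ1 ?_⟩
    intro y hy hgt
    by_contra hcon
    have hyS : y ∈ S := ⟨hy, (not_le.1 hcon).le⟩
    have h3 : |P y| / q ≤ |P y0| / q := hmax hyS
    linarith

theorem numer (hH : ST_HOM) (h : MaxQ d P q) (hc : Continuous Φ) {v f : ℕ} (hvf : 2 * f ≤ d * v)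
    (hΦ : ∀ (s : ℝ) (x : ι → ℝ), Φ (s • x) = s ^ (d * v - 2 * f) * Φ x) (N : ℕ) (hN : v + f ≤ N) :
    ∫ x : ι → ℝ, P x ^ (2 * N - v) * Φ x * Real.exp (-(nsq x) / 2) =
      q ^ (2 * N - v) * (∏ j ∈ range (d * N - f), ((Fintype.card ι : ℝ) + 2 * j)) *
        ∫ x, sg d P q x ^ (2 * N - v) * ps Φ (d * v - 2 * f) x ∂(GM ι) := by
  obtain ⟨C, hC0, hC⟩ := ps_bdd hc hΦ
  have e := hH ι (fun x => sg d P q x ^ (2 * N - v) * ps Φ (d * v - 2 * f) x) C
    (((sg_meas h).pow_const _).mul (ps_meas hc))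
    (fun x => by
      rw [abs_mul, abs_pow, abs_sg h]
      calc gp d P q x ^ (2 * N - v) * |ps Φ (d * v - 2 * f) x| ≤ 1 * C :=
            mul_le_mul (pow_le_one₀ (gp_nonneg h x) (gp_le h x)) (hC x) (abs_nonneg _) zero_le_one
        _ = C := one_mul C)
    (fun s x hs => by rw [sg_hom h s x hs, ps_hom hΦ s x hs]) (d * N - f)
  rw [GM_integral, mul_assoc, ← e, ← integral_const_mul]
  refine integral_congr_ae (ae_of_all _ fun x => ?_)
  simp only
  have e2 : nsq x ^ (d * N - f) = (Real.sqrt (nsq x) ^ d) ^ (2 * N - v) *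
      Real.sqrt (nsq x) ^ (d * v - 2 * f) := by
    rw [← pow_mul, ← pow_add]
    have : d * (2 * N - v) + (d * v - 2 * f) = 2 * (d * N - f) := ar1 d v f N hvf (by omega)
    rw [this, pow_mul, Real.sq_sqrt (nsq_nonneg x)]
  rw [e2]
  conv_lhs => rw [eq_sg h x, eq_ps hΦ x]
  rw [mul_pow, mul_pow]
  ring

theorem sg_int (h : MaxQ d P q) (k : ℕ) {g : (ι → ℝ) → ℝ} (hg : Measurable g) {C : ℝ}
    (hC : ∀ x, |g x| ≤ C) : Integrable (fun x => sg d P q x ^ k * g x) (GM ι) := by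
  have := GM_fin (ι := ι)
  refine (integrable_const C).mono' (((sg_meas h).pow_const _).mul hg).aestronglyMeasurable
    (ae_of_all _ fun x => ?_)
  rw [Real.norm_eq_abs, abs_mul, abs_pow, abs_sg h]
  calc gp d P q x ^ k * |g x| ≤ 1 * C :=
        mul_le_mul (pow_le_one₀ (gp_nonneg h x) (gp_le h x)) (hC x) (abs_nonneg _) zero_le_one
    _ = C := one_mul C

theorem gp_int (h : MaxQ d P q) (k : ℕ) : Integrable (fun x => gp d P q x ^ k) (GM ι) := by
  have := GM_fin (ι := ι)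
  refine (integrable_const 1).mono' ((gp_meas h).pow_const _).aestronglyMeasurable
    (ae_of_all _ fun x => ?_)
  rw [Real.norm_eq_abs, abs_pow, abs_of_nonneg (gp_nonneg h x)]
  exact pow_le_one₀ (gp_nonneg h x) (gp_le h x)

theorem core (hd0 : 0 < d) (hL : ST_LGC) (h : MaxQ d P q) (hc : Continuous Φ)
    (hΦ : ∀ (s : ℝ) (x : ι → ℝ), Φ (s • x) = s ^ e * Φ x) {c : ℝ} {v : ℕ}
    (hmx : ∀ x, nsq x = 1 → |P x| = q → Φ x = c * P x ^ v) :
    Tendsto (fun N : ℕ => (∫ x, sg d P q x ^ (2 * N - v) * ps Φ e x ∂(GM ι)) /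
      ∫ x, gp d P q x ^ (2 * N) ∂(GM ι)) atTop (𝓝 (c * q ^ v)) := by
  have := GM_fin (ι := ι)
  obtain ⟨L1, L2, L3⟩ := hL (ι → ℝ) (GM ι) (gp d P q) (gp_meas h) (gp_nonneg h) (gp_le h)
    (fun δ hδ => gp_ess h δ hδ)
  have h2N : Tendsto (fun N : ℕ => 2 * N) atTop atTop :=
    tendsto_id.const_mul_atTop' (by norm_num : (0 : ℕ) < 2)
  obtain ⟨C, hC0, hC⟩ := ps_bdd hc hΦ
  set C' : ℝ := C + |c * q ^ v| with hC'
  have hχ : ∀ x, |ps Φ e x - c * q ^ v * sg d P q x ^ v| ≤ C' := by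
    intro x
    have h1 : |c * q ^ v * sg d P q x ^ v| ≤ |c * q ^ v| := by
      rw [abs_mul, abs_pow, abs_sg h]
      exact mul_le_of_le_one_right (abs_nonneg _) (pow_le_one₀ (gp_nonneg h x) (gp_le h x))
    calc |ps Φ e x - c * q ^ v * sg d P q x ^ v| ≤ |ps Φ e x| + |c * q ^ v * sg d P q x ^ v| :=
          abs_sub _ _
      _ ≤ C' := add_le_add (hC x) h1
  rw [Metric.tendsto_atTop']
  intro ε hε
  obtain ⟨δ, hδ, hδ1, hn⟩ := near hd0 h hc hΦ hmx (ε / 4) (by positivity)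
  have t1 : Tendsto (fun N : ℕ => (∫ x, gp d P q x ^ (2 * N - v) ∂(GM ι)) /
      ∫ x, gp d P q x ^ (2 * N) ∂(GM ι)) atTop (𝓝 1) := (L2 v).comp h2N
  have t2 : Tendsto (fun N : ℕ => (1 - δ) ^ (2 * N - v) /
      ∫ x, gp d P q x ^ (2 * N) ∂(GM ι)) atTop (𝓝 0) := (L3 δ v hδ hδ1).comp h2N
  have t3 : Tendsto (fun N : ℕ => ε / 4 * ((∫ x, gp d P q x ^ (2 * N - v) ∂(GM ι)) /
      ∫ x, gp d P q x ^ (2 * N) ∂(GM ι)) + C' * (GM ι).real Set.univ *
      ((1 - δ) ^ (2 * N - v) / ∫ x, gp d P q x ^ (2 * N) ∂(GM ι))) atTop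
      (𝓝 (ε / 4 * 1 + C' * (GM ι).real Set.univ * 0)) :=
    (t1.const_mul _).add (t2.const_mul _)
  have hev := t3.eventually (gt_mem_nhds (show ε / 4 * 1 + C' * (GM ι).real Set.univ * 0 < ε by
    linarith))
  have hev2 := hev.and (eventually_ge_atTop v)
  obtain ⟨N0, hN0⟩ := eventually_atTop.1 hev2
  refine ⟨N0, fun N hN => ?_⟩
  obtain ⟨hb, hv⟩ := hN0 N hN.le
  have hm := L1 (2 * N)
  have e1 : ∫ x, gp d P q x ^ (2 * N) ∂(GM ι) = ∫ x, sg d P q x ^ (2 * N) ∂(GM ι) := by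
    refine integral_congr_ae (ae_of_all _ fun x => ?_)
    simp only
    rw [← abs_sg h, pow_mul, sq_abs, ← pow_mul]
  have e2 : (∫ x, sg d P q x ^ (2 * N - v) * ps Φ e x ∂(GM ι)) -
      c * q ^ v * ∫ x, gp d P q x ^ (2 * N) ∂(GM ι) =
      ∫ x, sg d P q x ^ (2 * N - v) * (ps Φ e x - c * q ^ v * sg d P q x ^ v) ∂(GM ι) := by
    rw [e1, ← integral_const_mul, ← integral_sub]
    · refine integral_congr_ae (ae_of_all _ fun x => ?_)
      simp only
      have e3 : sg d P q x ^ (2 * N) = sg d P q x ^ (2 * N - v) * sg d P q x ^ v := by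
        rw [← pow_add]
        congr 1
        omega
      rw [e3]
      ring
    · exact sg_int h _ (ps_meas hc) hC
    · have h3 := (sg_int h (2 * N) (g := fun _ => 1) measurable_const
        (C := 1) (fun x => by simp)).const_mul (c * q ^ v)
      simpa using h3
  have e4 : |(∫ x, sg d P q x ^ (2 * N - v) * ps Φ e x ∂(GM ι)) -
      c * q ^ v * ∫ x, gp d P q x ^ (2 * N) ∂(GM ι)| ≤
      ε / 4 * (∫ x, gp d P q x ^ (2 * N - v) ∂(GM ι)) +
        C' * (GM ι).real Set.univ * (1 - δ) ^ (2 * N - v) := by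
    rw [e2]
    have hb1 : ∀ x, ‖sg d P q x ^ (2 * N - v) * (ps Φ e x - c * q ^ v * sg d P q x ^ v)‖ ≤
        ε / 4 * gp d P q x ^ (2 * N - v) + C' * (1 - δ) ^ (2 * N - v) := by
      intro x
      rw [Real.norm_eq_abs, abs_mul, abs_pow, abs_sg h]
      have hg0 : 0 ≤ gp d P q x ^ (2 * N - v) := pow_nonneg (gp_nonneg h x) _
      have hd0 : 0 ≤ C' * (1 - δ) ^ (2 * N - v) :=
        mul_nonneg (by positivity) (pow_nonneg (by linarith) _)
      rcases lt_or_ge (1 - δ) (gp d P q x) with hgt | hle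
      · have := mul_le_mul_of_nonneg_left (hn x hgt) hg0
        linarith
      · have h5 : gp d P q x ^ (2 * N - v) ≤ (1 - δ) ^ (2 * N - v) :=
          pow_le_pow_left₀ (gp_nonneg h x) hle _
        have h6 : gp d P q x ^ (2 * N - v) * |ps Φ e x - c * q ^ v * sg d P q x ^ v| ≤
            (1 - δ) ^ (2 * N - v) * C' :=
          mul_le_mul h5 (hχ x) (abs_nonneg _) (pow_nonneg (by linarith) _)
        have h7 : 0 ≤ ε / 4 * gp d P q x ^ (2 * N - v) := by positivity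
        linarith
    have hb2 : Integrable (fun x => ε / 4 * gp d P q x ^ (2 * N - v) +
        C' * (1 - δ) ^ (2 * N - v)) (GM ι) :=
      ((gp_int h _).const_mul _).add (integrable_const _)
    have hb3 := norm_integral_le_of_norm_le hb2 (ae_of_all _ hb1)
    rw [integral_add ((gp_int h _).const_mul _) (integrable_const _), integral_const_mul,
      integral_const, smul_eq_mul] at hb3
    rw [Real.norm_eq_abs] at hb3
    calc _ ≤ _ := hb3
      _ = _ := by ring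
  rw [Real.dist_eq]
  have e5 : (∫ x, sg d P q x ^ (2 * N - v) * ps Φ e x ∂(GM ι)) /
      (∫ x, gp d P q x ^ (2 * N) ∂(GM ι)) - c * q ^ v =
      ((∫ x, sg d P q x ^ (2 * N - v) * ps Φ e x ∂(GM ι)) -
      c * q ^ v * ∫ x, gp d P q x ^ (2 * N) ∂(GM ι)) / ∫ x, gp d P q x ^ (2 * N) ∂(GM ι) := by
    field_simp
  rw [e5, abs_div, abs_of_pos hm, div_lt_iff₀ hm]
  have hb4 := mul_lt_mul_of_pos_right hb hm
  calc _ ≤ _ := e4
    _ = (ε / 4 * ((∫ x, gp d P q x ^ (2 * N - v) ∂(GM ι)) /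
      ∫ x, gp d P q x ^ (2 * N) ∂(GM ι)) + C' * (GM ι).real Set.univ *
      ((1 - δ) ^ (2 * N - v) / ∫ x, gp d P q x ^ (2 * N) ∂(GM ι))) *
        ∫ x, gp d P q x ^ (2 * N) ∂(GM ι) := by
        field_simp
    _ < _ := hb4

theorem prod_ratio (hd0 : 0 < d) (h : MaxQ d P q) (f : ℕ) : Tendsto (fun N : ℕ =>
    (∏ j ∈ range (d * N - f), ((Fintype.card ι : ℝ) + 2 * j)) * (2 * (d : ℝ) * (N : ℝ)) ^ f /
      ∏ j ∈ range (d * N), ((Fintype.card ι : ℝ) + 2 * j)) atTop (𝓝 1) := by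
  have hd1 : (0 : ℝ) < d := by exact_mod_cast hd0
  have h1 : ∀ j : ℕ, Tendsto (fun N : ℕ => 2 * (d : ℝ) * (N : ℝ) /
      (2 * (d : ℝ) * (N : ℝ) + ((Fintype.card ι : ℝ) - 2 * f + 2 * j))) atTop (𝓝 1) := by
    intro j
    set a : ℝ := (Fintype.card ι : ℝ) - 2 * f + 2 * j
    have ht : Tendsto (fun N : ℕ => 1 + a / (2 * (d : ℝ)) / (N : ℝ)) atTop (𝓝 (1 + 0)) :=
      tendsto_const_nhds.add (tendsto_const_div_atTop_nhds_zero_nat (a / (2 * (d : ℝ))))
    have ht2 := ht.inv₀ (by norm_num)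
    rw [add_zero, inv_one] at ht2
    refine ht2.congr' ?_
    filter_upwards [eventually_gt_atTop 0] with N hN
    have hN' : (0 : ℝ) < N := by exact_mod_cast hN
    have : 1 + a / (2 * (d : ℝ)) / (N : ℝ) = (2 * (d : ℝ) * (N : ℝ) + a) / (2 * (d : ℝ) * N) := by
      field_simp
    rw [this, inv_div]
  have h2 : Tendsto (fun N : ℕ => ∏ j ∈ range f, (2 * (d : ℝ) * (N : ℝ) /
      (2 * (d : ℝ) * (N : ℝ) + ((Fintype.card ι : ℝ) - 2 * f + 2 * j)))) atTop
      (𝓝 (∏ _j ∈ range f, (1 : ℝ))) :=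
    tendsto_finsetProd _ (fun j _ => h1 j)
  rw [Finset.prod_const_one] at h2
  refine h2.congr' ?_
  filter_upwards [eventually_ge_atTop f] with N hN
  have hf : f ≤ d * N := le_trans hN (Nat.le_mul_of_pos_left N hd0)
  have e : d * N = (d * N - f) + f := by omega
  have e2 : ∏ j ∈ range (d * N), ((Fintype.card ι : ℝ) + 2 * j)
      = (∏ j ∈ range (d * N - f), ((Fintype.card ι : ℝ) + 2 * j)) *
        ∏ j ∈ range f, ((Fintype.card ι : ℝ) + 2 * ((d * N - f + j : ℕ) : ℝ)) := by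
    conv_lhs => rw [e]
    rw [Finset.prod_range_add]
  rw [e2, mul_div_mul_left _ _ (prod_pos' h _).ne']
  have e3 : (2 * (d : ℝ) * (N : ℝ)) ^ f = ∏ _j ∈ range f, (2 * (d : ℝ) * (N : ℝ)) := by
    rw [Finset.prod_const, Finset.card_range]
  rw [e3, ← Finset.prod_div_distrib]
  apply Finset.prod_congr rfl
  intro j _
  congr 1
  push_cast [Nat.cast_sub hf]
  ring

end

/-- SOFT. -/
theorem st_SOFT (hH : ST_HOM) (hL : ST_LGC) : ST_SOFT := by
  intro ι _ d P q h v f Φ c hvf hc hΦ hmx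
  have hq := h.q0
  have hgc := (gc_pos ι).ne'
  rcases Nat.eq_zero_or_pos d with hd0 | hd0
  · subst hd0
    have hf : f = 0 := by omega
    subst hf
    have hP : ∀ x, P x = P 0 := by
      intro x
      have := h.hom 0 x
      rw [zero_smul, pow_zero, one_mul] at this
      exact this.symm
    have hF : ∀ x, Φ x = Φ 0 := by
      intro x
      have := hΦ 0 x
      rw [zero_smul, Nat.zero_mul, Nat.zero_sub, pow_zero, one_mul] at this
      exact this.symm
    obtain ⟨x0, hx0, hPx⟩ := h.att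
    have hx1 := hmx x0 hx0 hPx
    rw [hF, hP] at hx1
    rw [hP] at hPx
    have hP0 : P 0 ≠ 0 := by
      intro h0
      rw [h0, abs_zero] at hPx
      exact hq.ne hPx
    refine tendsto_const_nhds.congr' ?_
    filter_upwards [eventually_ge_atTop v] with N hN
    have e1 : (fun x : ι → ℝ => P x ^ (2 * N - v) * Φ x) = fun _ => c * P 0 ^ (2 * N) := by
      funext x
      rw [hP, hF, hx1]
      have : P 0 ^ (2 * N) = P 0 ^ (2 * N - v) * P 0 ^ v := by
        rw [← pow_add]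
        congr 1
        omega
      rw [this]
      ring
    have e2 : (fun x : ι → ℝ => P x ^ (2 * N)) = fun _ => P 0 ^ (2 * N) := by
      funext x
      rw [hP]
    have hpos := ((st_SOFB hH hL) ι 0 P q h).1 N
    rw [e2] at hpos
    rw [e1, e2, pow_zero, mul_one, GR_eq, GR_eq]
    rw [GR_eq] at hpos
    have e3 : ∫ x : ι → ℝ, c * P 0 ^ (2 * N) * Real.exp (-(nsq x) / 2) =
        c * ∫ x : ι → ℝ, P 0 ^ (2 * N) * Real.exp (-(nsq x) / 2) := by
      rw [← integral_const_mul]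
      refine integral_congr_ae (ae_of_all _ fun x => ?_)
      simp only
      ring
    rw [e3]
    have e4 : gc ι * (c * ∫ x : ι → ℝ, P 0 ^ (2 * N) * Real.exp (-(nsq x) / 2)) =
        c * (gc ι * ∫ x : ι → ℝ, P 0 ^ (2 * N) * Real.exp (-(nsq x) / 2)) := by ring
    rw [e4, mul_div_cancel_right₀ _ hpos.ne']
  have t1 := core hd0 hL h hc hΦ hmx
  have t2 := prod_ratio hd0 h f
  have t3 := (t1.mul t2).const_mul ((q ^ v)⁻¹)
  have hqv : (q ^ v)⁻¹ * (c * q ^ v * 1) = c := by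
    field_simp
  rw [hqv] at t3
  refine t3.congr' ?_
  filter_upwards [eventually_ge_atTop (v + f)] with N hN
  have hd := even_mom hH h N
  unfold mm at hd
  rw [GR_eq, GR_eq, numer hH h hc hvf hΦ N hN, hd]
  have hq2 : q ^ (2 * N) = q ^ (2 * N - v) * q ^ v := by
    rw [← pow_add]; congr 1; omega
  have hA := (prod_pos' h (d * N)).ne'
  have hqn : q ^ (2 * N - v) ≠ 0 := (pow_pos hq _).ne'
  have hqv2 : q ^ v ≠ 0 := (pow_pos hq _).ne'
  rw [hq2]
  by_cases hm : ∫ x, gp d P q x ^ (2 * N) ∂(GM ι) = 0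
  · rw [hm]
    simp
  · field_simp

end Pool.Agent.Helper59.T6
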